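import Mathlib

/-!
# Definitions for MP_7886dd_an (peak sets and RP-measures)
-/

open MeasureTheory

namespace H991.PS

/-- `ℂⁿ` with its Hermitian norm. -/
abbrev V (n : ℕ) : Type := EuclideanSpace ℂ (Fin n)

/-- The unit sphere of `ℂⁿ`. -/
abbrev S (n : ℕ) : Type := ↥(Metric.sphere (0 : V n) 1)

/-- Polynomials in the `2 n` variables `z_i` (`Sum.inl i`) and `z̄_i` (`Sum.inr i`). -/
abbrev Poly (n : ℕ) : Type := MvPolynomial (Fin n ⊕ Fin n) ℂ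

/-- The value at `z` of a polynomial in `z` and `z̄`. -/
noncomputable def ev {n : ℕ} (P : Poly n) (z : V n) : ℂ :=
  MvPolynomial.eval (Sum.elim (fun i => z i) (fun i => star (z i))) P

/-- `P` is homogeneous of degree `p` in `z`, homogeneous of degree `q` in `z̄`, and harmonic:
`∑ i, ∂²P/∂z_i∂z̄_i = 0`. -/
def HarmBi (n p q : ℕ) (P : Poly n) : Prop :=
  MvPolynomial.IsWeightedHomogeneous
      (Sum.elim (fun _ => 1) (fun _ => 0) : Fin n ⊕ Fin n → ℕ) P p ∧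
    MvPolynomial.IsWeightedHomogeneous
      (Sum.elim (fun _ => 0) (fun _ => 1) : Fin n ⊕ Fin n → ℕ) P q ∧
    ∑ i : Fin n, MvPolynomial.pderiv (Sum.inl i) (MvPolynomial.pderiv (Sum.inr i) P) = 0

/-- The space `H(p,q)`: restrictions to the sphere of harmonic polynomials of bidegree `(p,q)`. -/
def Hpq (n p q : ℕ) : Set C(S n, ℂ) :=
  {f | ∃ P : Poly n, HarmBi n p q P ∧ ∀ z : S n, f z = ev P z.1}

/-- The space `X`: the closure in `C(S)` of the span of all `H(p,q)` with `p, q ≥ 1`. -/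
noncomputable def X (n : ℕ) : Submodule ℂ C(S n, ℂ) :=
  (Submodule.span ℂ {f : C(S n, ℂ) | ∃ p q : ℕ, 1 ≤ p ∧ 1 ≤ q ∧ f ∈ Hpq n p q}).topologicalClosure

/-- `f` peaks on `K`. -/
def Peaks {n : ℕ} (f : C(S n, ℂ)) (K : Set (S n)) : Prop :=
  (∀ z ∈ K, f z = 1) ∧ ∀ z, z ∉ K → ‖f z‖ < 1

/-- The action of a unitary map on the sphere. -/
noncomputable def act {n : ℕ} (U : V n ≃ₗᵢ[ℂ] V n) (z : S n) : S n :=
  ⟨U z.1, by simp⟩

/-- Invariance of a measure on the sphere under all unitary maps. -/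
def RotInv {n : ℕ} (σ : Measure (S n)) : Prop :=
  ∀ U : V n ≃ₗᵢ[ℂ] V n, Measure.map (act U) σ = σ

/-! ### auxiliary notions -/

/-- `⟨z, ζ⟩ = ∑ z_i ζ̄_i`, linear in `z`. -/
noncomputable def ip {n : ℕ} (z ζ : V n) : ℂ := inner ℂ ζ z

/-- The function `z ↦ ⟨z, ζ⟩ ^ r` on the sphere. -/
noncomputable def pw {n : ℕ} (ζ : S n) (r : ℕ) : C(S n, ℂ) :=
  ⟨fun z => ip z.1 ζ.1 ^ r, by unfold ip; fun_prop⟩

/-- The span of all `⟨·, ζ⟩ ^ r`, `r ≥ 1`. -/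
noncomputable def HH (n : ℕ) : Submodule ℂ C(S n, ℂ) :=
  Submodule.span ℂ {f | ∃ (ζ : S n) (r : ℕ), 1 ≤ r ∧ f = pw ζ r}

/-- Strictly positive functions `u = 1 + Re H`, `H ∈ HH n`. -/
def Good {n : ℕ} (u : C(S n, ℝ)) : Prop :=
  (∀ z, 0 < u z) ∧ ∃ H ∈ HH n, ∀ z, u z = 1 + (H z).re

/-- Functions of circle frequency `k`: `F (c z) = c ^ k F z` for `|c| = 1`. -/
def Fr (n : ℕ) (k : ℤ) : Set C(S n, ℂ) :=
  {F | ∀ c : ℂ, ‖c‖ = 1 → ∀ z w : S n, w.1 = c • z.1 → F w = c ^ k * F z}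

/-- Finite sums of functions of frequency at least `m`. -/
noncomputable def FrGe (n : ℕ) (m : ℤ) : Submodule ℂ C(S n, ℂ) :=
  Submodule.span ℂ {F | ∃ k : ℤ, m ≤ k ∧ F ∈ Fr n k}

/-- Finite sums of functions that have a frequency. -/
noncomputable def FrAll (n : ℕ) : Submodule ℂ C(S n, ℂ) :=
  Submodule.span ℂ {F | ∃ k : ℤ, F ∈ Fr n k}

/-- The field `T_{ij} = z_i ∂/∂z_j - z̄_j ∂/∂z̄_i`, acting on polynomials. -/
noncomputable def T {n : ℕ} (i j : Fin n) (F : Poly n) : Poly n :=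
  MvPolynomial.X (Sum.inl i) * MvPolynomial.pderiv (Sum.inl j) F
    - MvPolynomial.X (Sum.inr j) * MvPolynomial.pderiv (Sum.inr i) F

/-- Frequency data of a real function `u`. -/
def FData {n : ℕ} (u : C(S n, ℝ)) (D : ℕ) (c : ℤ → C(S n, ℂ)) : Prop :=
  (∀ k, c k ∈ Fr n k) ∧ ∀ z, ((u z : ℝ) : ℂ) = ∑ k ∈ Finset.Icc (-(D : ℤ)) D, c k z

/-- `B(z, ζ) = ∑_{|k| ≤ D} c_k(ζ) ⟨z, ζ⟩^{k + D}`. -/
noncomputable def BB {n : ℕ} (D : ℕ) (c : ℤ → C(S n, ℂ)) (ζ : S n) : C(S n, ℂ) :=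
  ∑ k ∈ Finset.Icc (-(D : ℤ)) D, (c k ζ) • pw ζ ((k + D).toNat)

/-- The atom `⟨z, ζ⟩^{2 N} B(z, ζ)`. -/
noncomputable def atom {n : ℕ} (D : ℕ) (c : ℤ → C(S n, ℂ)) (N : ℕ) (ζ : S n) : C(S n, ℂ) :=
  pw ζ (2 * N) * BB D c ζ

theorem pw_apply {n : ℕ} (ζ : S n) (r : ℕ) (z : S n) : pw ζ r z = ip z.1 ζ.1 ^ r := rfl

theorem BB_apply {n : ℕ} (D : ℕ) (c : ℤ → C(S n, ℂ)) (ζ z : S n) :
    BB D c ζ z = ∑ k ∈ Finset.Icc (-(D : ℤ)) D, c k ζ * ip z.1 ζ.1 ^ ((k + D).toNat) := by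
  unfold BB
  rw [ContinuousMap.coe_sum, Finset.sum_apply]
  rfl

theorem atom_apply {n : ℕ} (D : ℕ) (c : ℤ → C(S n, ℂ)) (N : ℕ) (ζ z : S n) :
    atom D c N ζ z = ip z.1 ζ.1 ^ (2 * N) * BB D c ζ z := rfl

theorem ip_norm_le {n : ℕ} (z ζ : S n) : ‖ip z.1 ζ.1‖ ≤ 1 := by
  have h := norm_inner_le_norm (𝕜 := ℂ) ζ.1 z.1
  have hz : ‖z.1‖ = 1 := by simpa using z.2
  have hζ : ‖ζ.1‖ = 1 := by simpa using ζ.2
  unfold ip
  rw [hz, hζ] at h
  simpa using h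

theorem nrm {n : ℕ} (z : S n) : ‖z.1‖ = 1 := by simpa using z.2

theorem continuous_act {n : ℕ} (U : V n ≃ₗᵢ[ℂ] V n) : Continuous (act U) :=
  Continuous.subtype_mk (U.continuous.comp continuous_subtype_val) _

/-- Continuous functions on the sphere are integrable for finite measures. -/
theorem cint {n : ℕ} {E : Type} [NormedAddCommGroup E] (σ : Measure (S n)) [IsFiniteMeasure σ]
    [MeasurableSpace E] [BorelSpace E] [SecondCountableTopology E]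
    {f : S n → E} (hf : Continuous f) : Integrable f σ :=
  hf.integrable_of_hasCompactSupport (HasCompactSupport.of_compactSpace f)

/-- Change of variables. -/
theorem RotInv.int {n : ℕ} {σ : Measure (S n)} (h : RotInv σ) (U : V n ≃ₗᵢ[ℂ] V n)
    {f : S n → ℂ} (hf : Continuous f) : ∫ z, f (act U z) ∂σ = ∫ z, f z ∂σ := by
  have h1 : ∫ z, f z ∂(Measure.map (act U) σ) = ∫ z, f (act U z) ∂σ :=
    integral_map (continuous_act U).measurable.aemeasurable hf.aestronglyMeasurable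
  rw [← h1, h U]

end H991.PS
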