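import Pool.Agent.Run7.h991.PS.Defs

/-!
# Pieces for MP_7886dd_an (peak sets and RP-measures)

Every piece is a closed `Prop` `S_XXX`.  The file of piece `XXX` imports this file and proves
`theorem t_XXX (hypotheses, namely pieces named in the doc string) : S_XXX`.
Write `⟨z, ζ⟩` for `ip z ζ = ∑ z_i ζ̄_i`.
-/

open MeasureTheory

namespace H991.PS

/-! ## A. Orthogonality -/

/-- INVW (no dependence, 80 lines).  For real `t` let `U_t z = z + (e^{it} - 1) ⟨z,w⟩ w`, a unitary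
map (`w` is a unit vector), `U_{s+t} = U_s ∘ U_t`.  Let `D F = ∑ k, ∑ l, C (w k * star (w l)) * T l k F`,
a derivation of `Poly n`.  By induction on `F` (`MvPolynomial.induction_on`),
`HasDerivAt (fun t => ev F (U_t z)) (I * ev (D F) (U_t z)) t` for all `z`, `t`:
on generators `d/dt (U_t z)_k = i e^{it} ⟨z,w⟩ w_k = i ⟨U_t z, w⟩ w_k`, and the conjugate of this.
The bound `sup_{|z|=1} |ev (D F) z|` (continuity on a compact space) allows differentiation under the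
integral sign (`hasDerivAt_integral_of_dominated_loc_of_deriv_le`); `t ↦ ∫ ev F (U_t z) dσ` is
constant by `RotInv.int`, so `∫ ev (D F) dσ = 0`. -/
def S_INVW : Prop :=
  ∀ (n : ℕ) (σ : Measure (S n)) [IsProbabilityMeasure σ], RotInv σ →
    ∀ w : V n, ‖w‖ = 1 → ∀ F : Poly n,
      ∑ k : Fin n, ∑ l : Fin n, w k * star (w l) * ∫ z : S n, ev (T l k F) z.1 ∂σ = 0

/-- INV (from `S_INVW`, 40 lines).  Polarisation: put `M l k = ∫ ev (T l k F) dσ`.  By scaling,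
`∑ w_k conj(w_l) M l k = 0` for all `w`.  `w = e_k` gives `M k k = 0`; for `i ≠ j`,
`w = e_i + e_j` gives `M i j + M j i = 0` and `w = e_i + i e_j` gives `M i j = M j i`. -/
def S_INV : Prop :=
  ∀ (n : ℕ) (σ : Measure (S n)) [IsProbabilityMeasure σ], RotInv σ →
    ∀ (F : Poly n) (i j : Fin n), ∫ z : S n, ev (T i j F) z.1 ∂σ = 0

/-- ORTA (from `S_INV`, 80 lines).  Let `Q = (∑ i, C (ζ i) * X (inr i)) ^ r`, so that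
`ev Q z = star (⟨z,ζ⟩ ^ r)`, and `F_ij = X (inr i) * pderiv (inr j) P * Q`.  Then
`∑_ij T i j F_ij = (∑_i z_i z̄_i) (∑_j ∂_j ∂̄_j P) Q - ∑_ij z̄_j ∂̄_i (z̄_i (∂̄_j P) Q)`; the first sum is
`0` by harmonicity (`∂_j Q = 0`, `∂_j z̄_i = 0`), the second is `(n q + q (q-1) + q r) P Q` by Euler's
identity (`IsWeightedHomogeneous.sum_weight_X_mul_pderiv`, `IsWeightedHomogeneous.pderiv`).
Hence `q (n + q - 1 + r) ∫ ev P * ev Q = 0`. -/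
def S_ORTA : Prop :=
  ∀ (n : ℕ), 1 ≤ n → ∀ (σ : Measure (S n)) [IsProbabilityMeasure σ], RotInv σ →
    ∀ (p q : ℕ) (P : Poly n), HarmBi n p q P → 1 ≤ q → ∀ (ζ : S n) (r : ℕ),
      ∫ z : S n, ev P z.1 * star (ip z.1 ζ.1 ^ r) ∂σ = 0

/-- ORTB (from `S_INV`, 80 lines).  As `S_ORTA` with `z` and `z̄` exchanged:
`Q = (∑ i, C (star (ζ i)) * X (inl i)) ^ r`, `F_ij = X (inl j) * pderiv (inl i) P * Q`, and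
`∑_ij T i j F_ij = (n p + p (p-1) + p r) P Q - (∑_j z_j z̄_j)(∑_i ∂̄_i ∂_i P) Q`. -/
def S_ORTB : Prop :=
  ∀ (n : ℕ), 1 ≤ n → ∀ (σ : Measure (S n)) [IsProbabilityMeasure σ], RotInv σ →
    ∀ (p q : ℕ) (P : Poly n), HarmBi n p q P → 1 ≤ p → ∀ (ζ : S n) (r : ℕ),
      ∫ z : S n, ev P z.1 * ip z.1 ζ.1 ^ r ∂σ = 0

/-- ORTX (from `S_ORTA`, `S_ORTB`, 60 lines).  `u = 1 + (H + star H) / 2`.  By linearity in `H` (span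
induction) and in `f` (span induction) and `⟨z,ζ⟩ ^ 0 = 1`, `∫ f u = 0` for `f` in the span of the
`H(p,q)`, `p, q ≥ 1`; then pass to the closure, `f ↦ ∫ f u` being continuous:
`|∫ (f - g) u| ≤ ‖f - g‖ ‖u‖`.  (`n ≥ 2` gives a point `ζ` of the sphere for the exponent `0`.) -/
def S_ORTX : Prop :=
  ∀ (n : ℕ), 2 ≤ n → ∀ (σ : Measure (S n)) [IsProbabilityMeasure σ], RotInv σ →
    ∀ f ∈ X n, ∀ u : C(S n, ℝ), Good u → ∫ z, f z * ((u z : ℝ) : ℂ) ∂σ = 0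

/-! ## B. Frequencies -/

/-- ZER (no dependence, 25 lines).  Take `c = exp(iπ/k)`, so `|c| = 1` and `c^k = -1`, and the unitary
map `z ↦ c z`; `∫ F = ∫ F(c z) = - ∫ F`. -/
def S_ZER : Prop :=
  ∀ (n : ℕ) (σ : Measure (S n)) [IsProbabilityMeasure σ], RotInv σ →
    ∀ k : ℤ, k ≠ 0 → ∀ F ∈ Fr n k, ∫ z, F z ∂σ = 0

/-- FMUL (no dependence, 60 lines).  `Fr j * Fr k ⊆ Fr (j+k)`, `star (Fr k) ⊆ Fr (-k)`, then span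
inductions. -/
def S_FMUL : Prop :=
  ∀ n : ℕ,
    (∀ a b : ℤ, ∀ F ∈ FrGe n a, ∀ G ∈ FrGe n b, F * G ∈ FrGe n (a + b)) ∧
    (∀ F ∈ FrAll n, ∀ G ∈ FrAll n, F * G ∈ FrAll n) ∧
    (∀ F ∈ FrAll n, star F ∈ FrAll n) ∧
    (∀ F ∈ FrAll n, ∃ a : ℤ, F ∈ FrGe n a) ∧
    (∀ (ζ : S n) (r : ℕ), pw ζ r ∈ Fr n r) ∧
    (1 : C(S n, ℂ)) ∈ FrAll n

/-- DEN (from `S_FMUL`, 50 lines).  Stone-Weierstrass
(`ContinuousMap.starSubalgebra_topologicalClosure_eq_top_of_separatesPoints`): `FrAll n` is the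
carrier of a star subalgebra by `S_FMUL`; it contains the functions `pw ζ 1 = ⟨·,ζ⟩`, which separate
points (if `⟨z,z⟩ = ⟨w,z⟩` then `⟨w,z⟩ = 1` and `w = z`). -/
def S_DEN : Prop :=
  ∀ (n : ℕ) (ψ : C(S n, ℂ)) (ε : ℝ), 0 < ε → ∃ G ∈ FrAll n, ‖ψ - G‖ ≤ ε

/-- RLB (from `S_ZER`, `S_FMUL`, `S_DEN`, 40 lines).  Take `G ∈ FrAll` with
`‖ψ - G‖ ≤ ε / (|M| + 1)` and `a` with `G ∈ FrGe a`; let `m = 1 - a`.  For `F ∈ FrGe m` the product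
`F * G` lies in `FrGe 1`, so `∫ F G = 0` by `S_ZER` (span induction), and
`|∫ F ψ| = |∫ F (ψ - G)| ≤ M ε / (|M| + 1) ≤ ε`. -/
def S_RLB : Prop :=
  ∀ (n : ℕ) (σ : Measure (S n)) [IsProbabilityMeasure σ], RotInv σ →
    ∀ (ψ : C(S n, ℂ)) (M ε : ℝ), 0 < ε → ∃ m : ℤ, ∀ F ∈ FrGe n m, (∀ z, ‖F z‖ ≤ M) →
      ‖∫ z, F z * ψ z ∂σ‖ ≤ ε

/-- UFR (from `S_FMUL`, 50 lines).  `u = 1 + (H + star H)/2` belongs (as a complex function) to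
`FrAll`, since `HH n ≤ FrAll n`; by span induction every `F ∈ FrAll` is
`∑_{k ∈ Icc (-D) D} c k` for some `D` and some `c` with `c k ∈ Fr k` for all `k`
(enlarge `D` by putting `c k = 0` outside). -/
def S_UFR : Prop :=
  ∀ (n : ℕ) (u : C(S n, ℝ)), Good u → ∃ (D : ℕ) (c : ℤ → C(S n, ℂ)), FData u D c

/-- MEAN (from `S_ZER`, `S_FMUL`, 30 lines).  `∫ H = 0` for `H ∈ HH` since `pw ζ r ∈ Fr r`, `r ≥ 1`. -/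
def S_MEAN : Prop :=
  ∀ (n : ℕ) (σ : Measure (S n)) [IsProbabilityMeasure σ], RotInv σ →
    ∀ u : C(S n, ℝ), Good u → ∫ z, u z ∂σ = 1

/-! ## C. Nets -/

/-- PACK (no dependence, 80 lines).  Let `μ` be `Measure.addHaar` on `V n`, `d = 2 n` its real
dimension, `g(x) = ((1 + ‖x‖)^(2n+1))⁻¹`, integrable (`integrable_one_add_norm`).  The balls
`B(x, δ/2)`, `x ∈ Λ`, are disjoint, and for `w ∈ B(x, δ/2)`: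
`1 + ‖w-z‖/δ ≤ (3/2) (1 + ‖x-z‖/δ)`, so `((1 + ‖x-z‖/δ)^(2n+1))⁻¹ ≤ (3/2)^(2n+1) g((w-z)/δ)`.
Integrate over the balls and sum:
`μ(B(0,δ/2)) Σ ≤ (3/2)^(2n+1) ∫ g((w-z)/δ) dμ(w) = (3/2)^(2n+1) δ^d ∫ g`, and
`μ(B(0,δ/2)) = δ^d μ(B(0,1/2))`. -/
def S_PACK : Prop :=
  ∀ n : ℕ, ∃ C : ℝ, 0 < C ∧ ∀ δ : ℝ, 0 < δ → ∀ Λ : Finset (V n),
    (∀ x ∈ Λ, ∀ y ∈ Λ, x ≠ y → δ ≤ ‖x - y‖) → ∀ z : V n,
      ∑ x ∈ Λ, ((1 + ‖x - z‖ / δ) ^ (2 * n + 1))⁻¹ ≤ C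

/-- EXPB (no dependence, 25 lines).  `(1+t)^r ≤ 2^r (1 + t^r) ≤ 2^r (2 + t^(2r))` and
`t^(2r) ≤ 32^r r! e^{t²/32}`. -/
def S_EXPB : Prop :=
  ∀ r : ℕ, ∃ C : ℝ, 0 < C ∧ ∀ t : ℝ, 0 ≤ t → Real.exp (-(t ^ 2 / 32)) ≤ C * ((1 + t) ^ r)⁻¹

/-- `Λ` is separated at scale `1/(8N)`. -/
def Sep (n N : ℕ) (Λ : Finset (S n)) : Prop :=
  ∀ x ∈ Λ, ∀ y ∈ Λ, x ≠ y → ‖ip x.1 y.1‖ ^ 2 ≤ 1 - 1 / (8 * (N : ℝ))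

/-- PHASE (from `S_PACK`, `S_EXPB`, 80 lines).  Fix `z`; for `ζ ∈ Λ` choose `c_ζ` with `|c_ζ| = 1` and
`⟨z, c_ζ ζ⟩ = |⟨z,ζ⟩| =: ρ`.  For `x = c_ζ ζ`, `x' = c_ζ' ζ'` with `ζ ≠ ζ'`:
`‖x - x'‖² ≥ 2 - 2 |⟨ζ,ζ'⟩| ≥ 1 - |⟨ζ,ζ'⟩|² ≥ δ²`, `δ² := 1/(8N)`; so `ζ ↦ c_ζ ζ` is injective and the
image is `δ`-separated.  `‖x - z‖² = 2 - 2ρ ≤ 2 (1 - ρ²)`, so
`ρ^N = (1 - (1-ρ²))^{N/2} ≤ exp(-N(1-ρ²)/2) ≤ exp(-N ‖x-z‖²/4) = exp(-t²/32)`, `t = ‖x-z‖/δ`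
(it is easier to square: `ρ² ≤ exp(-(1-ρ²)) ≤ exp(-‖x-z‖²/2)`, so `ρ ≤ exp(-‖x-z‖²/4)`).
Now `S_EXPB` with `r = 2n+1` and `S_PACK`. -/
def S_PHASE : Prop :=
  ∀ n : ℕ, ∃ C : ℝ, 1 ≤ C ∧ ∀ N : ℕ, 1 ≤ N → ∀ Λ : Finset (S n), Sep n N Λ →
    ∀ z : S n, ∑ ζ ∈ Λ, ‖ip z.1 ζ.1‖ ^ N ≤ C

/-- MAXL (from `S_PACK`, 60 lines).  As in `S_PHASE`, `Sep n N Λ` implies that `Λ` is `δ`-separated in
the norm, `δ² = 1/(8N)`; `S_PACK` with `z` a point of the sphere and `‖x - z‖ ≤ 2` bounds the number of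
points of `Λ` by `C (1 + 2/δ)^(2n+1)`.  Take `Λ` separated with the largest number of points; if some
`z` had `‖⟨z,ζ⟩‖² < 1 - 1/(8N)` for all `ζ ∈ Λ`, then `Λ ∪ {z}` would be separated and larger. -/
def S_MAXL : Prop :=
  ∀ n N : ℕ, 1 ≤ N → ∃ Λ : Finset (S n), Sep n N Λ ∧
    ∀ z : S n, ∃ ζ ∈ Λ, 1 - 1 / (8 * (N : ℝ)) ≤ ‖ip z.1 ζ.1‖ ^ 2

/-! ## D. Weighted Ryll-Wojtaszczyk polynomials -/

/-- ATOM (no dependence, 80 lines).  `(z, ζ) ↦ BB D c ζ z` is continuous on `S × S` (compact), which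
gives `M`.  `Φ(z, ζ) = |‖BB D c ζ z‖ - u z|` is continuous, and vanishes where `‖⟨z,ζ⟩‖ = 1`: there
`z = w ζ` with `w = ⟨z,ζ⟩`, `|w| = 1` (equality in Cauchy-Schwarz), so
`BB = ∑ c_k(ζ) w^{k+D} = w^D ∑ w^k c_k(ζ) = w^D ∑ c_k(wζ) = w^D u(z)`.  The set
`{(z,ζ) : ε ≤ Φ}` is compact and `1 - ‖⟨z,ζ⟩‖² > 0` on it; if it is nonempty take
`η = half of the minimum` there, else `η = 1`. -/
def S_ATOM : Prop :=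
  ∀ (n : ℕ) (u : C(S n, ℝ)) (D : ℕ) (c : ℤ → C(S n, ℂ)), (∀ z, 0 < u z) → FData u D c →
    (∃ M : ℝ, ∀ z ζ : S n, ‖BB D c ζ z‖ ≤ M) ∧
    ∀ ε : ℝ, 0 < ε → ∃ η : ℝ, 0 < η ∧ ∀ z ζ : S n,
      1 - ‖ip z.1 ζ.1‖ ^ 2 ≤ η → |‖BB D c ζ z‖ - u z| ≤ ε

/-- MEM (from `S_FMUL` (for `pw ζ r ∈ Fr r`), 25 lines).
`atom = ∑_k c_k(ζ) pw ζ (2N + (k+D))`. -/
def S_MEM : Prop :=
  ∀ (n D : ℕ) (c : ℤ → C(S n, ℂ)) (N : ℕ), 1 ≤ N → ∀ ζ : S n,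
    atom D c N ζ ∈ HH n ∧ atom D c N ζ ∈ FrGe n (2 * (N : ℤ))

/-- UPP (from `S_ATOM`, 60 lines).  The sphere may be supposed nonempty; `m = min u > 0`, `ε = m/2`,
`η` from `S_ATOM` (reduce it to `η ≤ 1/2`).  Near points (`1 - ‖⟨z,ζ⟩‖² ≤ η`): `‖BB‖ ≤ 3/2 u(z)` and
`‖⟨z,ζ⟩‖^{2N} ≤ ‖⟨z,ζ⟩‖^N`.  Far points: `‖⟨z,ζ⟩‖² < 1 - η`, so
`‖⟨z,ζ⟩‖^{2N} ≤ (√(1-η))^N ‖⟨z,ζ⟩‖^N`.  So for every `ζ`
`‖atom‖ ≤ (3/2 u(z) + M (√(1-η))^N) ‖⟨z,ζ⟩‖^N ≤ 2 u(z) ‖⟨z,ζ⟩‖^N` once `M (√(1-η))^N ≤ m/2`. Sum. -/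
def S_UPP : Prop :=
  ∀ (n : ℕ) (C : ℝ), 1 ≤ C → ∀ (u : C(S n, ℝ)) (D : ℕ) (c : ℤ → C(S n, ℂ)), (∀ z, 0 < u z) →
    FData u D c → ∃ N0 : ℕ, ∀ N : ℕ, N0 ≤ N → ∀ Λ : Finset (S n),
      (∀ z : S n, ∑ ζ ∈ Λ, ‖ip z.1 ζ.1‖ ^ N ≤ C) →
      ∀ z, ∑ ζ ∈ Λ, ‖atom D c N ζ z‖ ≤ 2 * C * u z

/-- LOW (from `S_ATOM`, 40 lines).  `ε = min u / 2`, `N0 ≥ 1` with `1/(8 N0) ≤ η`: then
`‖BB‖ ≥ u(z)/2`, and `‖⟨z,ζ⟩‖^{4N} = (‖⟨z,ζ⟩‖²)^{2N} ≥ (1 - 1/(8N))^{2N} ≥ 1 - 2N/(8N) = 3/4` by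
Bernoulli (`one_add_mul_le_pow`). -/
def S_LOW : Prop :=
  ∀ (n : ℕ) (u : C(S n, ℝ)) (D : ℕ) (c : ℤ → C(S n, ℂ)), (∀ z, 0 < u z) →
    FData u D c → ∃ N0 : ℕ, ∀ N : ℕ, N0 ≤ N → ∀ z ζ : S n,
      1 - 1 / (8 * (N : ℝ)) ≤ ‖ip z.1 ζ.1‖ ^ 2 → u z ^ 2 / 16 ≤ ‖atom D c N ζ z‖ ^ 2

/-- SIGN (no dependence, 50 lines).  Induction on `Λ` with
`‖A + b‖² + ‖A - b‖² = 2 ‖A‖² + 2 ‖b‖²` (`parallelogram_law_with_norm`): one of the two signs of the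
new term does not decrease the integral by less than `∫ ‖b‖² ω`. -/
def S_SIGN : Prop :=
  ∀ (n : ℕ) (σ : Measure (S n)) [IsProbabilityMeasure σ] (Λ : Finset (S n))
    (a : S n → C(S n, ℂ)) (ω : C(S n, ℝ)), (∀ z, 0 ≤ ω z) →
    ∃ e : S n → ℝ, (∀ ζ, e ζ = 1 ∨ e ζ = -1) ∧
      ∑ ζ ∈ Λ, ∫ z, ‖a ζ z‖ ^ 2 * ω z ∂σ ≤
        ∫ z, ‖∑ ζ ∈ Λ, ((e ζ : ℝ) : ℂ) * a ζ z‖ ^ 2 * ω z ∂σ

/-- RWL (from `S_PHASE`, `S_MAXL`, `S_UFR`, `S_MEM`, `S_UPP`, `S_LOW`, `S_SIGN`, 80 lines).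
`C` from `S_PHASE`, `c = 1/(256 C²)`.  Given `u`, `m`: `D`, `c_k` from `S_UFR`, `N` large (larger than
the two `N0`, `1` and `m`), `Λ` from `S_MAXL`, signs from `S_SIGN` with `a = atom D c N` and
`ω = 1/s³`, and `h = (1/(4C)) ∑ e_ζ atom_ζ`.  `‖h‖ ≤ (1/(4C)) 2 C u`, and
`∫ ‖h‖² ω ≥ (1/(16C²)) ∫ ∑_ζ ‖atom_ζ‖² ω ≥ (1/(16C²)) ∫ (u²/16) ω`, `u² ω = s`. -/
def S_RWL : Prop :=
  ∀ n : ℕ, ∃ c : ℝ, 0 < c ∧ c ≤ 1 ∧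
    ∀ (σ : Measure (S n)) [IsProbabilityMeasure σ] (u s : C(S n, ℝ)), Good u →
      (∀ z, 0 < s z ∧ s z ^ 2 = u z) → ∀ m : ℤ,
        ∃ h : C(S n, ℂ), h ∈ HH n ∧ h ∈ FrGe n m ∧ (∀ z, ‖h z‖ ≤ u z / 2) ∧
          c * ∫ z, s z ∂σ ≤ ∫ z, ‖h z‖ ^ 2 / s z ^ 3 ∂σ

/-! ## E. The construction -/

/-- SQI (no dependence, 20 lines).  Squaring: with `y = x / s²`, `|y| ≤ 1/2`,
`(1 + y/2 - y²/16)² - (1 + y) = y²/8 - y³/16 + y⁴/256 ≥ 0`. -/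
def S_SQI : Prop :=
  ∀ s x : ℝ, 0 < s → |x| ≤ s ^ 2 / 2 →
    Real.sqrt (s ^ 2 + x) ≤ s + x / (2 * s) - x ^ 2 / (16 * s ^ 3)

/-- STEP (from `S_RWL`, `S_RLB`, `S_FMUL`, `S_SQI`, 120 lines).  `s = √u` (a continuous function), `c0`
from `S_RWL`, `c = c0/32` (`< 1`).  Use `S_RLB` (with `M = max u + (max u)²`) for the finitely many
functions `ψ ∈ Ψ`, `1/s` and `1/s³` with a small tolerance, let `m ≥ 0` be larger than all the resulting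
`m`'s (`FrGe` is antitone), and take `h` from `S_RWL` for this `m`; `h * h ∈ FrGe (2m) ≤ FrGe m`.
`v = u + Re h`, positive since `|Re h| ≤ u/2`, and `Good`.
By `S_SQI`, `√v ≤ s + Re h/(2s) - (Re h)²/(16 s³)` and `(Re h)² = (|h|² + Re (h²))/2`, so
`∫√v ≤ ∫ s + ½ Re ∫ h/s - (1/32) ∫ |h|²/s³ - (1/32) Re ∫ h²/s³ ≤ (1 - c0/32) ∫ s + ε`;
`|∫ ψ (v - u)| = |Re ∫ ψ h| ≤ ε`. -/
def S_STEP : Prop :=
  ∀ n : ℕ, ∃ c : ℝ, 0 < c ∧ c < 1 ∧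
    ∀ (σ : Measure (S n)) [IsProbabilityMeasure σ], RotInv σ →
      ∀ u : C(S n, ℝ), Good u → ∀ (Ψ : List C(S n, ℝ)) (ε : ℝ), 0 < ε →
        ∃ v : C(S n, ℝ), Good v ∧
          ∫ z, Real.sqrt (v z) ∂σ ≤ (1 - c) * ∫ z, Real.sqrt (u z) ∂σ + ε ∧
          ∀ ψ ∈ Ψ, |∫ z, ψ z * (v z - u z) ∂σ| ≤ ε

/-- BIG (from `S_STEP`, 40 lines).  By induction on `k`: for all `ε > 0` there is a good `v` with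
`∫√v ≤ (1-c)^k ∫√u + ε` and `|∫ ψ (v - u)| ≤ ε` (apply the case `k` with `ε/2`, then `S_STEP` with
`ε/2`).  Then take `k` large. -/
def S_BIG : Prop :=
  ∀ (n : ℕ) (σ : Measure (S n)) [IsProbabilityMeasure σ], RotInv σ →
    ∀ u : C(S n, ℝ), Good u → ∀ (Ψ : List C(S n, ℝ)) (ε : ℝ), 0 < ε →
      ∃ v : C(S n, ℝ), Good v ∧ ∫ z, Real.sqrt (v z) ∂σ ≤ ε ∧
        ∀ ψ ∈ Ψ, |∫ z, ψ z * (v z - u z) ∂σ| ≤ ε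

/-- The cutoff `min 1 (max 0 (2 u / η - 1))`. -/
noncomputable def cut {n : ℕ} (η : ℝ) (u : C(S n, ℝ)) : C(S n, ℝ) :=
  ⟨fun z => min 1 (max 0 (2 * u z / η - 1)), by fun_prop⟩

/-- SEQA (from `S_BIG`, 60 lines).  Recursion on pairs (function, list of the cutoffs used so far):
`u 0` from `S_BIG` for the constant function `1` (good, `H = 0`) with `Ψ = []`; given `(u j, L j)` take
`u (j+1)` from `S_BIG` for `u j`, `Ψ = L j` and `ε = (1/4)^(j+4)`, and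
`L (j+1) = cut ((1/4)^(j+3)) (u (j+1)) :: L j`; `L 0 = [cut ((1/4)^2) (u 0)]`. -/
def S_SEQA : Prop :=
  ∀ (n : ℕ) (σ : Measure (S n)) [IsProbabilityMeasure σ], RotInv σ →
    ∃ u : ℕ → C(S n, ℝ), (∀ j, Good (u j)) ∧
      (∀ j, ∫ z, Real.sqrt (u j z) ∂σ ≤ (1 / 4 : ℝ) ^ (j + 3)) ∧
      ∀ i j, i ≤ j →
        |∫ z, cut ((1 / 4 : ℝ) ^ (i + 2)) (u i) z * (u (j + 1) z - u j z) ∂σ| ≤ (1 / 4 : ℝ) ^ (j + 4)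

/-- SEQB (from `S_SEQA`, `S_MEAN`, 120 lines).  `η_i = (1/4)^(i+2)`, `F i = {z | η_i/2 ≤ u i z}`
(closed), `ψ_i = cut η_i (u i)`; `ψ_i = 0` off `F i`, `0 ≤ ψ_i ≤ 1`, and `ψ_i = 1` where `u i ≥ η_i`.
Markov: `σ(F i) √(η_i/2) ≤ ∫ √(u i) ≤ (1/4)^(i+3)` and `√(η_i/2) ≥ √(η_i/4) = (1/2)^(i+3)`, so
`σ(F i) ≤ (1/2)^(i+3)`.  `∫ ψ_i u_i ≥ ∫_{u_i ≥ η_i} u_i = 1 - ∫_{u_i < η_i} u_i ≥ 1 - η_i`
(or: `ψ_i u_i ≥ u_i - η_i` pointwise), and for `j ≥ i`,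
`∫ ψ_i u_j ≥ ∫ ψ_i u_i - ∑_{i ≤ k < j} (1/4)^(k+4) ≥ 1 - 2 η_i`, whence
`∫_{F i} u_j ≥ 1 - 2 η_i`, i.e. `∫_{(F i)ᶜ} u_j ≤ 2 η_i`.  Then
`∫_{⋂_{i ≤ j} F i} u_j ≥ 1 - ∑_{i ≤ j} 2 η_i ≥ 1 - 2 (1/16)(4/3) ≥ 3/4`
(again easier pointwise: `1_{⋂ F i} ≥ 1 - ∑ (1 - ψ_i)`). -/
def S_SEQB : Prop :=
  ∀ (n : ℕ) (σ : Measure (S n)) [IsProbabilityMeasure σ], RotInv σ →
    ∃ (u : ℕ → C(S n, ℝ)) (F : ℕ → Set (S n)), (∀ j, Good (u j)) ∧ (∀ j, IsClosed (F j)) ∧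
      (∀ j, σ (F j) ≤ ENNReal.ofReal ((1 / 2 : ℝ) ^ j)) ∧
      ∀ j, (3 / 4 : ℝ) ≤ ∫ z in ⋂ i ∈ Finset.range (j + 1), F i, u j z ∂σ

/-- FIN (from `S_SEQB`, `S_ORTX`, `S_MEAN`, 60 lines).  `K = ⋂ i, F i`: compact, `σ K ≤ (1/2)^j` for all
`j`.  Suppose `f ∈ X` peaks on `K`.  The compact set `{z | Re f z ≤ 9/10}` misses `K`, so it misses
`G = ⋂_{i ≤ j} F i` for some `j` (compactness, decreasing sets).  With `u = u j`, `∫ u = 1`: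
`0 = Re ∫ f u = ∫ Re f u ≥ (9/10) ∫_G u - ∫_{Gᶜ} u ≥ (9/10)(3/4) - 1/4 > 0` (as `Re f ≥ -1`). -/
def S_FIN : Prop :=
  ∀ (n : ℕ), 2 ≤ n → ∀ (σ : Measure (S n)) [IsProbabilityMeasure σ], RotInv σ →
    ∃ K : Set (S n), IsCompact K ∧ σ K = 0 ∧ ¬ ∃ f ∈ X n, Peaks f K

/-- EXI (no dependence, 60 lines).  The normalised `(Measure.addHaar : Measure (V n)).toSphere`:
a linear isometry preserves `addHaar` (its image is a Haar measure with the same value on the unit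
ball). -/
def S_EXI : Prop :=
  ∀ (n : ℕ), 1 ≤ n → ∃ σ : Measure (S n), IsProbabilityMeasure σ ∧ RotInv σ

end H991.PS
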